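import Pool.Agent.helper81.PJ.Spec

/-! # pj:EN2: the second moment of `nu2` -/

set_option autoImplicit false

open Finset

namespace Pool.Agent.PJ

open Pool.Agent.PY2

theorem EN2_core {X C : Type*} [Fintype X] (I : Finset C) (e : C → X → ℝ) (b : ℝ) (h0 : ∀ c x, 0 ≤ e c x)
    (hb : ∀ c ∈ I, ∀ c' ∈ I, ∑ x, e c x * e c' x ≤ b) :
    ∑ x, ∑ y, (∑ c ∈ I, e c x * e c y) ^ 2 ≤ b * ∑ x, (∑ c ∈ I, e c x) ^ 2 := by
  have h1 : ∑ x, ∑ y, (∑ c ∈ I, e c x * e c y) ^ 2 = ∑ c ∈ I, ∑ c' ∈ I, (∑ x, e c x * e c' x) ^ 2 := by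
    calc ∑ x, ∑ y, (∑ c ∈ I, e c x * e c y) ^ 2
        = ∑ x, ∑ y, ∑ c ∈ I, ∑ c' ∈ I, (e c x * e c' x) * (e c y * e c' y) := by
          apply Finset.sum_congr rfl
          intro x _
          apply Finset.sum_congr rfl
          intro y _
          rw [sq, Finset.sum_mul_sum]
          apply Finset.sum_congr rfl
          intro c _
          apply Finset.sum_congr rfl
          intro c' _
          ring
      _ = ∑ x, ∑ c ∈ I, ∑ y, ∑ c' ∈ I, (e c x * e c' x) * (e c y * e c' y) := by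
          apply Finset.sum_congr rfl
          intro x _
          exact Finset.sum_comm
      _ = ∑ c ∈ I, ∑ x, ∑ y, ∑ c' ∈ I, (e c x * e c' x) * (e c y * e c' y) := Finset.sum_comm
      _ = ∑ c ∈ I, ∑ x, ∑ c' ∈ I, ∑ y, (e c x * e c' x) * (e c y * e c' y) := by
          apply Finset.sum_congr rfl
          intro c _
          apply Finset.sum_congr rfl
          intro x _
          exact Finset.sum_comm
      _ = ∑ c ∈ I, ∑ c' ∈ I, ∑ x, ∑ y, (e c x * e c' x) * (e c y * e c' y) := by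
          apply Finset.sum_congr rfl
          intro c _
          exact Finset.sum_comm
      _ = ∑ c ∈ I, ∑ c' ∈ I, (∑ x, e c x * e c' x) ^ 2 := by
          apply Finset.sum_congr rfl
          intro c _
          apply Finset.sum_congr rfl
          intro c' _
          rw [sq, Finset.sum_mul_sum]
  have h2 : ∑ x, (∑ c ∈ I, e c x) ^ 2 = ∑ c ∈ I, ∑ c' ∈ I, ∑ x, e c x * e c' x := by
    calc ∑ x, (∑ c ∈ I, e c x) ^ 2 = ∑ x, ∑ c ∈ I, ∑ c' ∈ I, e c x * e c' x := by
          apply Finset.sum_congr rfl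
          intro x _
          rw [sq, Finset.sum_mul_sum]
      _ = ∑ c ∈ I, ∑ x, ∑ c' ∈ I, e c x * e c' x := Finset.sum_comm
      _ = ∑ c ∈ I, ∑ c' ∈ I, ∑ x, e c x * e c' x := by
          apply Finset.sum_congr rfl
          intro c _
          exact Finset.sum_comm
  rw [h1, h2, Finset.mul_sum]
  apply Finset.sum_le_sum
  intro c hc
  rw [Finset.mul_sum]
  apply Finset.sum_le_sum
  intro c' hc'
  rw [sq]
  exact mul_le_mul_of_nonneg_right (hb c hc c' hc')
    (Finset.sum_nonneg fun x _ => mul_nonneg (h0 c x) (h0 c' x))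

/-- the indicator of `u x - m ∈ B` -/
noncomputable def EN2_e {p : ℕ} (B : Finset (ZMod p)) (c : ℕ × ℕ) (x : ZMod p) : ℝ :=
  if (c.1 : ZMod p) * x - (c.2 : ZMod p) ∈ B then 1 else 0

theorem EN2_nu2 {p : ℕ} (B : Finset (ZMod p)) (H U : ℕ) (x y : ZMod p) :
    (nu2 B H U x y : ℝ) = ∑ c ∈ Ioc U (2 * U) ×ˢ range H, EN2_e B c x * EN2_e B c y := by
  unfold nu2
  rw [Finset.sum_product]
  push_cast
  apply Finset.sum_congr rfl
  intro u _
  apply Finset.sum_congr rfl
  intro m _
  unfold EN2_e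
  by_cases h1 : (u : ZMod p) * x - (m : ZMod p) ∈ B
  · by_cases h2 : (u : ZMod p) * y - (m : ZMod p) ∈ B
    · simp [h1, h2]
    · simp [h1, h2]
  · simp [h1]

theorem EN2_nu {p : ℕ} (B : Finset (ZMod p)) (H U : ℕ) (x : ZMod p) :
    (Pool.Agent.SPI.nu B H U x : ℝ) = ∑ c ∈ Ioc U (2 * U) ×ˢ range H, EN2_e B c x := by
  unfold Pool.Agent.SPI.nu
  rw [Finset.sum_product]
  push_cast
  apply Finset.sum_congr rfl
  intro u _
  rw [Finset.card_filter, Finset.sum_product_right]
  push_cast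
  apply Finset.sum_congr rfl
  intro m _
  unfold EN2_e
  simp only
  by_cases h1 : (u : ZMod p) * x - (m : ZMod p) ∈ B
  · rw [if_pos h1]
    rw [Finset.sum_eq_single ((u : ZMod p) * x - (m : ZMod p))]
    · rw [if_pos (sub_add_cancel _ _)]
    · intro z _ hz
      rw [if_neg]
      intro h
      exact hz (eq_sub_of_add_eq h)
    · intro h
      exact absurd h1 h
  · rw [if_neg h1]
    apply Finset.sum_eq_zero
    intro z hz
    rw [if_neg]
    intro h
    apply h1
    rw [← eq_sub_of_add_eq h]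
    exact hz

theorem EN2 : EN2_stmt := by
  intro p _ H U B hU
  simp only [EN2_nu2, EN2_nu]
  apply EN2_core
  · intro c x
    unfold EN2_e
    split_ifs
    · exact zero_le_one
    · exact le_refl 0
  · intro c hc c' _
    rw [Finset.mem_product, Finset.mem_Ioc] at hc
    have hu : (c.1 : ZMod p) ≠ 0 := by
      intro h
      rw [ZMod.natCast_eq_zero_iff] at h
      have := Nat.le_of_dvd (by omega) h
      omega
    have h1 : ∑ x, EN2_e B c x * EN2_e B c' x ≤ ∑ x, EN2_e B c x := by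
      apply Finset.sum_le_sum
      intro x _
      unfold EN2_e
      split_ifs <;> simp
    refine h1.trans (le_of_eq ?_)
    unfold EN2_e
    rw [← Finset.sum_filter, Finset.sum_const, nsmul_eq_mul, mul_one]
    congr 1
    apply Finset.card_bij' (fun x _ => (c.1 : ZMod p) * x - (c.2 : ZMod p))
      (fun z _ => (z + (c.2 : ZMod p)) / (c.1 : ZMod p))
    · intro x hx
      exact (Finset.mem_filter.1 hx).2
    · intro z hz
      rw [Finset.mem_filter]
      refine ⟨Finset.mem_univ _, ?_⟩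
      rw [mul_div_cancel₀ _ hu, add_sub_cancel_right]
      exact hz
    · intro x hx
      rw [sub_add_cancel, mul_div_cancel_left₀ _ hu]
    · intro z hz
      rw [mul_div_cancel₀ _ hu, add_sub_cancel_right]

end Pool.Agent.PJ
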